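import Mathlib

set_option autoImplicit false

open Set Topology

namespace Pool.Agent.Work.MP_fbd347_gt_helper49

/-- `C_p(X)`: the continuous real functions on `X` with the topology of pointwise convergence
(the subspace topology of the product `ℝ^X`). -/
abbrev CpSpace (X : Type) [TopologicalSpace X] : Type := {f : X → ℝ // Continuous f}

/-- A space is realcompact if it is homeomorphic to a closed subspace of some power of the line. -/
def IsRealcompact (Y : Type) [TopologicalSpace Y] : Prop :=
  ∃ (ι : Type) (e : Y → ι → ℝ), IsClosedEmbedding e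

/-- `i : Z → Y` makes `Y` the Hewitt realcompactification of `Z`: `i` is a homeomorphic embedding
onto a dense subspace, `Y` is realcompact and every continuous real function on `Z` extends to a
continuous real function on `Y`. -/
structure IsHewittRealcompactification {Z Y : Type} [TopologicalSpace Z] [TopologicalSpace Y]
    (i : Z → Y) : Prop where
  embedding : IsEmbedding i
  dense : DenseRange i
  realcompact : IsRealcompact Y
  extension : ∀ f : Z → ℝ, Continuous f → ∃ g : Y → ℝ, Continuous g ∧ ∀ z, g (i z) = f z

/-- A Lindelöf `Σ`-space: a compact cover `C` and a countable family `N` of sets such that each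
open neighbourhood `U` of a member `K` of `C` contains some `A ∈ N` with `K ⊆ A`. -/
def IsLindelofSigma (Z : Type) [TopologicalSpace Z] : Prop :=
  ∃ C N : Set (Set Z), (∀ K ∈ C, IsCompact K) ∧ ⋃₀ C = univ ∧ N.Countable ∧
    ∀ K ∈ C, ∀ U : Set Z, IsOpen U → K ⊆ U → ∃ A ∈ N, K ⊆ A ∧ A ⊆ U

/-- A `K`-analytic space: the union of the values of an upper semicontinuous compact-valued map
defined on the Baire space `ℕ^ℕ`. -/
def IsKAnalytic (Z : Type) [TopologicalSpace Z] : Prop :=
  ∃ K : (ℕ → ℕ) → Set Z, (∀ s, IsCompact (K s)) ∧ (⋃ s, K s) = univ ∧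
    ∀ (s : ℕ → ℕ) (U : Set Z), IsOpen U → K s ⊆ U →
      ∃ n : ℕ, ∀ t : ℕ → ℕ, (∀ m < n, t m = s m) → K t ⊆ U

end Pool.Agent.Work.MP_fbd347_gt_helper49
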