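import Pool.Agent.Work.MP_fbd347_gt_helper49.Defs
import Pool.Agent.Work.MP_fbd347_gt.LevelOne
import Pool.Agent.Work.MP_fbd347_gt.LevelTwo
import Pool.Agent.Work.MP_fbd347_gt.Space

set_option autoImplicit false

open Set Filter Topology

namespace Pool.Agent.Work.MP_fbd347_gt_helper49

open Pool.Agent.Work.MP_fbd347_gt

/-- The evaluation map of a Tychonoff space is an embedding. -/
theorem eval_isEmbedding (Z : Type) [TopologicalSpace Z] [T35Space Z] :
    IsEmbedding (fun (z : Z) (g : CpSpace Z) => g.1 z) := by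
  have hcont : Continuous (fun (z : Z) (g : CpSpace Z) => g.1 z) :=
    continuous_pi fun g => g.2
  have sep : ∀ (z : Z) (K : Set Z), IsClosed K → z ∉ K →
      ∃ g : CpSpace Z, g.1 z = 0 ∧ ∀ w ∈ K, g.1 w = 1 := by
    intro z K hK hz
    obtain ⟨f, hf, h0, h1⟩ := CompletelyRegularSpace.completely_regular z K hK hz
    refine ⟨⟨fun w => (f w : ℝ), continuous_subtype_val.comp hf⟩, ?_, ?_⟩
    · change ((f z : unitInterval) : ℝ) = 0
      rw [h0]; rfl
    · intro w hw
      change ((f w : unitInterval) : ℝ) = 1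
      rw [h1 hw]; rfl
  refine ⟨isInducing_iff_nhds.2 fun z => ?_, ?_⟩
  · apply le_antisymm
    · exact (hcont.tendsto z).le_comap
    · intro U hU
      obtain ⟨O, hOU, hO, hzO⟩ := mem_nhds_iff.1 hU
      obtain ⟨g, hg0, hg1⟩ := sep z Oᶜ hO.isClosed_compl (fun h => h hzO)
      refine ⟨{ξ | ξ g < 1}, ?_, ?_⟩
      · apply IsOpen.mem_nhds
        · exact isOpen_lt (continuous_apply g) continuous_const
        · change g.1 z < 1
          rw [hg0]; exact one_pos
      · intro w hw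
        apply hOU
        by_contra hwU
        have h1 : g.1 w = 1 := hg1 w hwU
        have h2 : g.1 w < 1 := hw
        linarith
  · intro z w hzw
    by_contra hne
    obtain ⟨g, hg0, hg1⟩ := sep z {w} isClosed_singleton (by simpa using hne)
    have h1 := congrFun hzw g
    have h2 : g.1 z = g.1 w := h1
    rw [hg0, hg1 w rfl] at h2
    exact zero_ne_one h2

/-- The closure of the evaluation image is a Hewitt realcompactification. -/
theorem hewitt_closure (Z : Type) [TopologicalSpace Z] [T35Space Z] :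
    IsHewittRealcompactification (Y := closure (EV Z))
      (fun z : Z => (⟨fun g => g.1 z, subset_closure ⟨z, rfl⟩⟩ : closure (EV Z))) where
  embedding := by
    refine IsEmbedding.of_comp ?_ continuous_subtype_val ?_
    · refine Continuous.subtype_mk ?_ _
      exact continuous_pi fun g => g.2
    · exact eval_isEmbedding Z
  dense := by
    intro y
    rw [closure_subtype]
    have : (Subtype.val '' range fun z : Z =>
        (⟨fun g => g.1 z, subset_closure ⟨z, rfl⟩⟩ : closure (EV Z))) = EV Z := by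
      rw [← range_comp]
      rfl
    rw [this]
    exact y.2
  realcompact := ⟨CpSpace Z, Subtype.val, isClosed_closure.isClosedEmbedding_subtypeVal⟩
  extension := by
    intro f hf
    exact ⟨fun y => y.1 ⟨f, hf⟩, (continuous_apply _).comp continuous_subtype_val, fun z => rfl⟩

/-- `K`-analytic spaces are Lindelöf `Σ`-spaces. -/
theorem IsKAnalytic.isLindelofSigma {Z : Type} [TopologicalSpace Z] (h : IsKAnalytic Z) :
    IsLindelofSigma Z := by
  obtain ⟨K, hK, hcov, husc⟩ := h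
  refine ⟨range K, range (fun l : List ℕ => ⋃ (t : ℕ → ℕ) (_ : ∀ m (hm : m < l.length),
    t m = l[m]), K t), ?_, ?_, countable_range _, ?_⟩
  · rintro _ ⟨s, rfl⟩
    exact hK s
  · rw [sUnion_range]
    exact hcov
  · rintro _ ⟨s, rfl⟩ U hU hsU
    obtain ⟨n, hn⟩ := husc s U hU hsU
    refine ⟨_, ⟨(List.range n).map s, rfl⟩, ?_, ?_⟩
    · refine subset_iUnion₂_of_subset s ?_ subset_rfl
      intro m hm
      simp
    · refine iUnion₂_subset fun t ht => hn t ?_
      intro m hm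
      have := ht m (by simpa using hm)
      simpa using this

/-- Lindelöf `Σ`-spaces are Lindelöf. -/
theorem IsLindelofSigma.lindelofSpace {Z : Type} [TopologicalSpace Z] (h : IsLindelofSigma Z) :
    LindelofSpace Z := by
  classical
  obtain ⟨C, N, hC, hcov, hN, hnet⟩ := h
  refine ⟨isLindelof_of_countable_subcover fun {ι} U hU hUc => ?_⟩
  have hfin : ∀ K ∈ C, ∃ A ∈ N, K ⊆ A ∧ ∃ t : Finset ι, A ⊆ ⋃ i ∈ t, U i := by
    intro K hK
    obtain ⟨t, ht⟩ := (hC K hK).elim_finite_subcover U hU ((subset_univ K).trans hUc)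
    obtain ⟨A, hA, hKA, hAU⟩ := hnet K hK (⋃ i ∈ t, U i)
      (isOpen_biUnion fun i _ => hU i) ht
    exact ⟨A, hA, hKA, t, hAU⟩
  let N' : Set (Set Z) := {A ∈ N | ∃ t : Finset ι, A ⊆ ⋃ i ∈ t, U i}
  have hN' : N'.Countable := hN.mono fun A hA => hA.1
  choose! T hT using fun (A : Set Z) (hA : A ∈ N') => hA.2
  refine ⟨⋃ A ∈ N', (T A : Set ι), hN'.biUnion fun A _ => (T A).countable_toSet, ?_⟩
  intro z _
  have hz : z ∈ ⋃₀ C := by rw [hcov]; exact mem_univ z
  obtain ⟨K, hK, hzK⟩ := hz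
  obtain ⟨A, hA, hKA, t, hAt⟩ := hfin K hK
  have hAN : A ∈ N' := ⟨hA, t, hAt⟩
  obtain ⟨i, hi, hzi⟩ := mem_iUnion₂.1 (hT A hAN (hKA hzK))
  exact mem_iUnion₂.2 ⟨i, mem_iUnion₂.2 ⟨A, hAN, hi⟩, hzi⟩

variable {X : Type} [TopologicalSpace X]

/-- First level: the closure of the evaluation image of `Cp X` is a `K`-analytic space. -/
theorem levelOne_KAnalytic (G : Good X) : IsKAnalytic (closure (EV (Cp X))) := by
  classical
  let Θ : G.YT → (Cp (Cp X) → ℝ) := fun y g => G.hat g y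
  have hΘ : Continuous Θ := continuous_pi fun g => G.hat_continuous g
  have hcl : closure (EV (Cp X)) = range Θ := G.closure_EV
  let Ψ : G.YT → closure (EV (Cp X)) := fun y => ⟨Θ y, by rw [hcl]; exact mem_range_self y⟩
  have hΨ : Continuous Ψ := hΘ.subtype_mk _
  have hΨsurj : Function.Surjective Ψ := by
    rintro ⟨ξ, hξ⟩
    have h' := hξ
    rw [hcl] at h'
    obtain ⟨y, rfl⟩ := h'
    exact ⟨y, rfl⟩
  -- the compact sets
  let KS : (ℕ → ℕ) → Set (X → ℝ) := fun s => {v | (∀ x, |v x| ≤ s 0) ∧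
    ∀ m, ∀ i ≥ s (m + 1), ∀ u, |v (G.pt (u, i)) - v G.inf| ≤ 1 / ((m : ℝ) + 1)}
  let C : (ℕ → ℕ) → ℕ → Set (X → ℝ) := fun s l => {v | (∀ x, |v x| ≤ s 0) ∧
    ∀ m < l, ∀ i ≥ s (m + 1), ∀ u, |v (G.pt (u, i)) - v G.inf| ≤ 1 / ((m : ℝ) + 1)}
  have hCclosed : ∀ s l, IsClosed (C s l) := by
    intro s l
    have heq : C s l = (⋂ x, {v : X → ℝ | |v x| ≤ s 0}) ∩ ⋂ (m : ℕ) (_ : m < l) (i : ℕ)
        (_ : i ≥ s (m + 1)) (u : ℕ → Bool),
        {v : X → ℝ | |v (G.pt (u, i)) - v G.inf| ≤ 1 / ((m : ℝ) + 1)} := by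
      ext v
      simp [C]
    rw [heq]
    refine (isClosed_iInter fun x => ?_).inter (isClosed_iInter fun m => isClosed_iInter fun _ =>
      isClosed_iInter fun i => isClosed_iInter fun _ => isClosed_iInter fun u => ?_)
    · exact isClosed_le (continuous_apply x).abs continuous_const
    · exact isClosed_le ((continuous_apply (G.pt (u, i))).sub (continuous_apply G.inf)).abs
        continuous_const
  have hbox : ∀ k : ℕ, IsCompact (Set.pi univ fun _ : X => Icc (-(k : ℝ)) k) := fun k =>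
    isCompact_univ_pi fun _ => isCompact_Icc
  have hCcompact : ∀ s l, IsCompact (C s l) := fun s l =>
    (hbox (s 0)).of_isClosed_subset (hCclosed s l) fun v hv x _ => abs_le.1 (hv.1 x)
  have hCanti : ∀ s {i j}, i ≤ j → C s j ⊆ C s i := fun s i j hij v hv =>
    ⟨hv.1, fun m hm => hv.2 m (hm.trans_le hij)⟩
  have hKS : ∀ s, KS s = ⋂ l, C s l := by
    intro s
    ext v
    constructor
    · intro hv
      exact mem_iInter.2 fun l => ⟨hv.1, fun m _ => hv.2 m⟩
    · intro hv
      refine ⟨(mem_iInter.1 hv 0).1, fun m => ?_⟩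
      exact (mem_iInter.1 hv (m + 1)).2 m (Nat.lt_succ_self m)
  have hKScompact : ∀ s, IsCompact (KS s) := by
    intro s
    rw [hKS s]
    exact (hCcompact s 0).of_isClosed_subset (isClosed_iInter (hCclosed s)) (iInter_subset _ 0)
  have hKSYY : ∀ s, KS s ⊆ range (Subtype.val : G.YT → X → ℝ) := by
    intro s v hv
    refine ⟨⟨v, ⟨s 0, hv.1⟩, ?_⟩, rfl⟩
    intro ε hε
    obtain ⟨m, hm⟩ := exists_nat_one_div_lt hε
    refine ⟨s (m + 1), fun i hi u => ?_⟩
    exact (hv.2 m i hi u).trans hm.le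
  refine ⟨fun s => Ψ '' (Subtype.val ⁻¹' KS s), ?_, ?_, ?_⟩
  · intro s
    exact ((IsInducing.subtypeVal.isCompact_preimage_iff (hKSYY s)).2 (hKScompact s)).image hΨ
  · rw [eq_univ_iff_forall]
    intro ξ
    obtain ⟨y, rfl⟩ := hΨsurj ξ
    obtain ⟨M, hM⟩ := y.2.1
    obtain ⟨k, hk⟩ := exists_nat_ge M
    choose ν hν using fun m : ℕ => y.2.2 (1 / ((m : ℝ) + 1)) (by positivity)
    refine mem_iUnion.2 ⟨fun n => Nat.casesOn n k ν, y, ?_, rfl⟩
    exact ⟨fun x => (hM x).trans hk, fun m i hi u => hν m i hi u⟩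
  · intro s U hU hsU
    obtain ⟨O', hO', hOO'⟩ := isOpen_induced_iff.1 (hU.preimage hΨ)
    have hKO : KS s ⊆ O' := by
      intro v hv
      obtain ⟨v', rfl⟩ := hKSYY s hv
      have : v' ∈ Subtype.val ⁻¹' O' := by
        rw [hOO']
        exact hsU ⟨v', hv, rfl⟩
      exact this
    obtain ⟨l, hl⟩ : ∃ l, C s l ⊆ O' := by
      refine exists_subset_nhds_of_isCompact' ?_ (hCcompact s) (hCclosed s)
        (fun v hv => hO'.mem_nhds (hKO (by rw [hKS s]; exact hv)))
      exact directed_of_isDirected_le fun i j hij => hCanti s hij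
    refine ⟨l + 1, fun t ht => ?_⟩
    rintro _ ⟨v, hv, rfl⟩
    have hv' : v.1 ∈ C s l := by
      have hv1 : (∀ x, |v.1 x| ≤ t 0) ∧
        ∀ m, ∀ i ≥ t (m + 1), ∀ u, |v.1 (G.pt (u, i)) - v.1 G.inf| ≤ 1 / ((m : ℝ) + 1) := hv
      refine ⟨fun x => ?_, fun m hm i hi u => ?_⟩
      · rw [← ht 0 (by omega)]
        exact hv1.1 x
      · exact hv1.2 m i (by rw [ht (m + 1) (by omega)]; exact hi) u
    have : v ∈ Ψ ⁻¹' U := by
      rw [← hOO']
      exact hl hv'
    exact this

/-- In a Lindelöf set, every uncountable family has a condensation point. -/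
theorem exists_condensation_lindelof {S ι : Type} [TopologicalSpace S] (V : Set S)
    (hV : IsLindelof V) (ξ : ι → S) (hξ : ∀ i, ξ i ∈ V) (hι : ¬ (univ : Set ι).Countable) :
    ∃ x ∈ V, ∀ U ∈ 𝓝 x, ¬ {i | ξ i ∈ U}.Countable := by
  by_contra hcon
  push Not at hcon
  apply hι
  choose! U hU hUc using hcon
  obtain ⟨t, htc, htV, hcov⟩ := hV.elim_nhds_subcover U hU
  have hsub : (univ : Set ι) ⊆ ⋃ x ∈ t, {i | ξ i ∈ U x} := by
    intro i _
    have := hcov (hξ i)
    simpa using this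
  exact Countable.mono hsub (htc.biUnion fun x hx => hUc x (htV x hx))

end Pool.Agent.Work.MP_fbd347_gt_helper49
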