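import Pool.Agent.Work.MP_fbd347_gt_helper49.Lemmas

set_option autoImplicit false

open Set Filter Topology

namespace Pool.Agent.Work.MP_fbd347_gt_helper49

open Pool.Agent.Work.MP_fbd347_gt

variable {X : Type} [TopologicalSpace X]

/-- Second level: the closure of the evaluation image of `Cp (Cp X)` is not a Lindelöf space. -/
theorem levelTwo_notLindelof (G : Good X) : ¬ IsLindelof (closure (EV (Cp (Cp X)))) := by
  classical
  intro hLS
  -- the functions `φ u`
  let gg : (ℕ → Bool) → ℕ → Cp X → ℝ := fun u n z =>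
    Nat.casesOn n (z.1 G.inf) fun n => z.1 (G.pt (u, n))
  let cc : ℕ → ℝ := fun n => Nat.casesOn n 0 fun _ => 1
  have hgg : ∀ u n, Continuous (gg u n) := by
    intro u n
    cases n with
    | zero => exact (continuous_apply G.inf).comp continuous_subtype_val
    | succ n => exact (continuous_apply (G.pt (u, n))).comp continuous_subtype_val
  let ψ : (ℕ → Bool) → Cp X → ℝ := fun u => eta (gg u) cc
  have hψpos : ∀ u z, 0 < ψ u z := by
    intro u z
    refine eta_pos _ _ z ?_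
    by_contra hcon
    push Not at hcon
    obtain ⟨n, hn⟩ := G.atInf z.1 z.2 (1 / 2) (by norm_num)
    have h0 : z.1 G.inf = 0 := hcon 0
    have h1 : z.1 (G.pt (u, n)) = 1 := hcon (n + 1)
    have h2 := hn n le_rfl u
    rw [h0, h1] at h2
    norm_num at h2
  let φ : (ℕ → Bool) → Cp (Cp X) := fun u => ⟨fun z => (ψ u z)⁻¹,
    (eta_continuous _ (hgg u) _).inv₀ fun z => (hψpos u z).ne'⟩
  let ev : Cp (Cp X) → (Cp (Cp (Cp X)) → ℝ) := fun w g => g.1 w
  have hunc : ¬ (univ : Set (ℕ → Bool)).Countable := by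
    intro h
    have hc : Countable (ℕ → Bool) := countable_univ_iff.1 h
    obtain ⟨f, hf⟩ := exists_surjective_nat (ℕ → Bool)
    obtain ⟨n, hn⟩ := hf (fun k => !(f k k))
    have := congrFun hn n
    simp at this
  obtain ⟨ξ, hξ, hcond⟩ := exists_condensation_lindelof (closure (EV (Cp (Cp X)))) hLS
    (fun u => ev (φ u)) (fun u => subset_closure ⟨φ u, rfl⟩) hunc
  -- an ultrafilter
  have hne : (comap (fun u => ev (φ u)) (𝓝 ξ) ⊓ cofinite).NeBot := by
    rw [inf_neBot_iff]
    intro s hs t ht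
    obtain ⟨U, hU, hUs⟩ := hs
    by_contra hemp
    rw [not_nonempty_iff_eq_empty] at hemp
    apply hcond U hU
    refine (mem_cofinite.1 ht).countable.mono ?_
    intro u hu hut
    have : u ∈ s ∩ t := ⟨hUs hu, hut⟩
    rw [hemp] at this
    exact this
  let 𝒰 : Ultrafilter (ℕ → Bool) := Ultrafilter.of (comap (fun u => ev (φ u)) (𝓝 ξ) ⊓ cofinite)
  have h𝒰le : (𝒰 : Filter (ℕ → Bool)) ≤ comap (fun u => ev (φ u)) (𝓝 ξ) ⊓ cofinite :=
    Ultrafilter.of_le _
  have h𝒰1 : Tendsto (fun u => ev (φ u)) 𝒰 (𝓝 ξ) :=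
    tendsto_iff_comap.2 (h𝒰le.trans inf_le_left)
  have h𝒰2 : (𝒰 : Filter (ℕ → Bool)) ≤ cofinite := h𝒰le.trans inf_le_right
  let b : ℕ → Bool := fun n => decide ({u : ℕ → Bool | u n = true} ∈ 𝒰)
  have hb : ∀ n, {u : ℕ → Bool | u n = b n} ∈ 𝒰 := by
    intro n
    by_cases h : {u : ℕ → Bool | u n = true} ∈ 𝒰
    · have : b n = true := by simp [b, h]
      rw [this]; exact h
    · have hbn : b n = false := by simp [b, h]
      rw [hbn]
      have h' := Ultrafilter.compl_mem_iff_notMem.2 h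
      have heq : {u : ℕ → Bool | u n = true}ᶜ = {u : ℕ → Bool | u n = false} := by
        ext u; simp
      rwa [heq] at h'
  let B : ℕ → Set (ℕ → Bool) := fun j => {u | (∀ k < j, u k = b k) ∧ u ≠ b}
  have hB : ∀ j, B j ∈ 𝒰 := by
    intro j
    have h1 : (⋂ k ∈ Finset.range j, {u : ℕ → Bool | u k = b k}) ∈ (𝒰 : Filter (ℕ → Bool)) :=
      (Filter.biInter_finset_mem _).2 fun k _ => hb k
    have h2 : {u : ℕ → Bool | u ≠ b} ∈ (𝒰 : Filter (ℕ → Bool)) :=
      h𝒰2 (mem_cofinite.2 ((finite_singleton b).subset fun u hu => by simpa using hu))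
    filter_upwards [h1, h2] with u hu1 hu2
    refine ⟨fun k hk => ?_, hu2⟩
    exact mem_iInter₂.1 hu1 k (Finset.mem_range.2 hk)
  -- the test functions
  let yy : ℕ → X → ℝ := fun j x => if ∃ p : (ℕ → Bool) × ℕ, G.pt p = x ∧ p.1 ∈ B j ∧ p.2 < j
    then 1 else 0
  have hyyv : ∀ j p, yy j (G.pt p) = if p.1 ∈ B j ∧ p.2 < j then 1 else 0 := by
    intro j p
    have : (∃ p' : (ℕ → Bool) × ℕ, G.pt p' = G.pt p ∧ p'.1 ∈ B j ∧ p'.2 < j) ↔
        (p.1 ∈ B j ∧ p.2 < j) := by
      constructor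
      · rintro ⟨p', hp', h⟩
        rw [G.inj hp'] at h
        exact h
      · intro h
        exact ⟨p, rfl, h⟩
    simp only [yy, this]
  have hyyi : ∀ j, yy j G.inf = 0 := by
    intro j
    have : ¬ ∃ p' : (ℕ → Bool) × ℕ, G.pt p' = G.inf ∧ p'.1 ∈ B j ∧ p'.2 < j := by
      rintro ⟨p', hp', _⟩
      exact G.ne p' hp'
    simp only [yy, this, if_false]
  have hyy : ∀ j, yy j ∈ YY G.pt G.inf := by
    intro j
    refine ⟨⟨1, fun x => ?_⟩, fun ε hε => ⟨j, fun i hi u => ?_⟩⟩
    · simp only [yy]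
      split_ifs <;> simp
    · rw [hyyv, hyyi]
      have : ¬ (u ∈ B j ∧ i < j) := fun h => absurd h.2 (not_lt.2 hi)
      simp [this, hε.le]
  choose q₀ hq₀c hq₀p hq₀i _ using fun j => G.ext (yy j) (hyy j) ∅ countable_empty
  let q : ℕ → Cp X := fun j => ⟨fun x => max 0 (min 1 (q₀ j x)),
    continuous_const.max (continuous_const.min (hq₀c j))⟩
  have hq01 : ∀ j x, (q j).1 x ∈ Icc (0 : ℝ) 1 := fun j x =>
    ⟨le_max_left _ _, max_le zero_le_one (min_le_left _ _)⟩
  have hqp : ∀ j p, (q j).1 (G.pt p) = if p.1 ∈ B j ∧ p.2 < j then 1 else 0 := by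
    intro j p
    change max 0 (min 1 (q₀ j (G.pt p))) = _
    rw [hq₀p, hyyv]
    split_ifs <;> norm_num
  have hqi : ∀ j, (q j).1 G.inf = 0 := by
    intro j
    change max 0 (min 1 (q₀ j G.inf)) = _
    rw [hq₀i, hyyi]
    norm_num
  -- the values
  have hval : ∀ j, ∀ u ∈ B j, (φ u).1 (q j) = 2 ^ j := by
    intro j u hu
    have hψ : ψ u (q j) = (1 / 2 : ℝ) ^ j := by
      refine geom_tail j _ (fun m hm => ?_) (fun m hm => ?_)
      · cases m with
        | zero =>
          change (1 / 2 : ℝ) ^ 0 * min 1 |(q j).1 G.inf - 0| = 0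
          rw [hqi]; simp
        | succ m =>
          change (1 / 2 : ℝ) ^ (m + 1) * min 1 |(q j).1 (G.pt (u, m)) - 1| = 0
          rw [hqp, if_pos ⟨hu, by omega⟩]
          simp
      · cases m with
        | zero => omega
        | succ m =>
          change (1 / 2 : ℝ) ^ (m + 1) * min 1 |(q j).1 (G.pt (u, m)) - 1| = _
          rw [hqp, if_neg (fun h => absurd h.2 (by simp only [not_lt]; omega))]
          norm_num
    change (ψ u (q j))⁻¹ = 2 ^ j
    rw [hψ]
    simp
  -- the limit of the evaluations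
  let e : ℕ → Cp (Cp (Cp X)) := fun j => ⟨fun w => w.1 (q j),
    (continuous_apply (q j)).comp continuous_subtype_val⟩
  have hξe : ∀ j, ξ (e j) = 2 ^ j := by
    intro j
    have h1 : Tendsto (fun u => (φ u).1 (q j)) 𝒰 (𝓝 (ξ (e j))) :=
      ((continuous_apply (e j)).tendsto ξ).comp h𝒰1
    have h2 : Tendsto (fun u => (φ u).1 (q j)) 𝒰 (𝓝 (2 ^ j)) := by
      refine tendsto_const_nhds.congr' ?_
      filter_upwards [hB j] with u hu
      exact (hval j u hu).symm
    exact tendsto_nhds_unique h1 h2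
  obtain ⟨w, hw⟩ := gdelta_approx ξ hξ e
  have hw' : ∀ j, w.1 (q j) = 2 ^ j := fun j => (hw j).trans (hξe j)
  -- the limit of the test functions along an ultrafilter on `ℕ`
  have hbox : IsCompact (Set.pi univ fun _ : X => Icc (0 : ℝ) 1) :=
    isCompact_univ_pi fun _ => isCompact_Icc
  obtain ⟨y, hy01, hylim⟩ := hbox.ultrafilter_le_nhds ((hyperfilter ℕ).map fun j => (q j).1)
    (by
      rw [le_principal_iff]
      change (fun j => (q j).1) ⁻¹' _ ∈ hyperfilter ℕ
      have : (fun j => (q j).1) ⁻¹' (Set.pi univ fun _ : X => Icc (0 : ℝ) 1) = univ :=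
        eq_univ_of_forall fun j x _ => hq01 j x
      rw [this]; exact Filter.univ_mem)
  have hylim' : Tendsto (fun j => (q j).1) (hyperfilter ℕ) (𝓝 y) := hylim
  have hyx : ∀ x, Tendsto (fun j => (q j).1 x) (hyperfilter ℕ) (𝓝 (y x)) := fun x =>
    ((continuous_apply x).tendsto y).comp hylim'
  have hyi : y G.inf = 0 := by
    refine tendsto_nhds_unique (hyx G.inf) ?_
    simp only [hqi]
    exact tendsto_const_nhds
  have hyp : ∀ p, y (G.pt p) = 0 := by
    intro p
    refine tendsto_nhds_unique (hyx (G.pt p)) ?_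
    refine tendsto_const_nhds.congr' ?_
    have : ∀ᶠ j in atTop, (0 : ℝ) = (q j).1 (G.pt p) := by
      by_cases hpb : p.1 = b
      · refine Eventually.of_forall fun j => ?_
        rw [hqp, if_neg]
        rintro ⟨h, _⟩
        exact h.2 hpb
      · obtain ⟨k, hk⟩ : ∃ k, p.1 k ≠ b k := by
          by_contra hcon
          push Not at hcon
          exact hpb (funext hcon)
        filter_upwards [eventually_gt_atTop k] with j hj
        rw [hqp, if_neg]
        rintro ⟨h, _⟩
        exact hk (h.1 k hj)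
    exact Nat.hyperfilter_le_atTop this
  have hyYY : y ∈ YY G.pt G.inf := by
    refine ⟨⟨1, fun x => abs_le.2 ⟨?_, (hy01 x trivial).2⟩⟩, fun ε hε => ⟨0, fun i _ u => ?_⟩⟩
    · linarith [(hy01 x trivial).1]
    · rw [hyp, hyi]; simpa using hε.le
  have hconv : Tendsto (fun j => G.inc (q j)) (hyperfilter ℕ) (𝓝 (⟨y, hyYY⟩ : G.YT)) := by
    rw [tendsto_subtype_rng]
    exact hylim'
  have hfin : Tendsto (fun j => G.hat w (G.inc (q j))) (hyperfilter ℕ)
      (𝓝 (G.hat w ⟨y, hyYY⟩)) := ((G.hat_continuous w).tendsto _).comp hconv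
  simp only [G.hat_inc, hw'] at hfin
  have hinf : Tendsto (fun j : ℕ => (2 : ℝ) ^ j) (hyperfilter ℕ) atTop :=
    (tendsto_pow_atTop_atTop_of_one_lt one_lt_two).mono_left Nat.hyperfilter_le_atTop
  exact not_tendsto_nhds_of_tendsto_atTop hinf _ hfin

end Pool.Agent.Work.MP_fbd347_gt_helper49
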